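import Pool.Agent.Helper25.BG.Final

/-!
# The Brakensiek-Guruswami conjecture on promise graph homomorphism

For every finite graph `G` that is not bipartite and every finite loopless graph `H` the promise
problem `PCSP(G, H)` is NP-hard. For instance, it is NP-hard to distinguish 3-colourable graphs
from graphs that are not `c`-colourable, for every constant `c`.
-/

set_option autoImplicit false

namespace Pool.Agent.Results.MP_67bc2f_lc.BrakensiekGuruswami

open Pool.Agent.Helper25.PH

/-- **The Brakensiek-Guruswami conjecture.** Let `G`, `H` be finite (loopless, undirected) graphs
such that `G` is not bipartite. Then every language in NP has a polynomial time many-one reduction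
to the promise problem `PCSP(G, H)`: words of the language go to adjacency matrices of digraphs
that map homomorphically to `G`, all other words go to adjacency matrices of digraphs that do not
map homomorphically to `H`. (It is not needed that `G` maps to `H`.) -/
theorem result {V W : Type} [Finite V] [Finite W] (G : SimpleGraph V) (H : SimpleGraph W)
    (hG : ¬ G.Colorable 2) : NPHardPCSP G H :=
  Pool.Agent.Helper25.BG.hard G H hG

end Pool.Agent.Results.MP_67bc2f_lc.BrakensiekGuruswami
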